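import Pool.Agent.W788.LD.Main

/-! From local smoothing to spectral measures. -/

set_option autoImplicit false
set_option linter.unusedSectionVars false

open scoped BigOperators
open MeasureTheory

namespace Pool.Agent.W788.LD.Spec

open Pool.Agent.W788.LD.Main
open Pool.Agent.H4R2.LO (Zd)

variable {d : ℕ}

theorem summ_mul (u v : Zd d → ℂ) (hu : Summable fun x => ‖u x‖ ^ 2)
    (hv : Summable fun x => ‖v x‖ ^ 2) : Summable fun x => (starRingEnd ℂ) (u x) * v x := by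
  refine Summable.of_norm_bounded (g := fun x => ‖u x‖ ^ 2 + ‖v x‖ ^ 2) (hu.add hv) fun x => ?_
  rw [norm_mul, Complex.norm_conj]
  nlinarith [sq_nonneg (‖u x‖ + ‖v x‖), sq_nonneg (‖u x‖ - ‖v x‖)]

theorem summ_shift (u : Zd d → ℂ) (e : Zd d) (hu : Summable fun x => ‖u x‖ ^ 2) :
    Summable fun x => ‖u (x + e)‖ ^ 2 :=
  (Equiv.addRight e).summable_iff.2 hu

theorem shiftsum (F : Zd d → ℂ) (e : Zd d) : ∑' x, F (x + e) = ∑' x, F x :=
  (Equiv.addRight e).tsum_eq F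

/-- the sum over the neighbours -/
noncomputable def S (u : Zd d → ℂ) (x : Zd d) : ℂ :=
  ∑ i : Fin d, (u (x + Pi.single i 1) + u (x - Pi.single i 1))

/-- the sum of the neighbours is symmetric -/
theorem symm (P Q : Zd d → ℂ) (hP : Summable fun x => ‖P x‖ ^ 2)
    (hQ : Summable fun x => ‖Q x‖ ^ 2) :
    Summable (fun x => (starRingEnd ℂ) (P x) * S Q x) ∧
    Summable (fun x => (starRingEnd ℂ) (S P x) * Q x) ∧
    ∑' x, (starRingEnd ℂ) (P x) * S Q x = ∑' x, (starRingEnd ℂ) (S P x) * Q x := by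
  have hm : ∀ (A : Zd d → ℂ), (Summable fun x => ‖A x‖ ^ 2) → ∀ e : Zd d,
      Summable fun x => ‖A (x - e)‖ ^ 2 := by
    intro A hA e
    have := summ_shift A (-e) hA
    simpa [sub_eq_add_neg] using this
  have k1 : ∀ i : Fin d, Summable fun x => (starRingEnd ℂ) (P x) * Q (x + Pi.single i 1) :=
    fun i => summ_mul P (fun x => Q (x + Pi.single i 1)) hP (summ_shift Q _ hQ)
  have k2 : ∀ i : Fin d, Summable fun x => (starRingEnd ℂ) (P x) * Q (x - Pi.single i 1) :=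
    fun i => summ_mul P (fun x => Q (x - Pi.single i 1)) hP (hm Q hQ _)
  have k3 : ∀ i : Fin d, Summable fun x => (starRingEnd ℂ) (P (x + Pi.single i 1)) * Q x :=
    fun i => summ_mul (fun x => P (x + Pi.single i 1)) Q (summ_shift P _ hP) hQ
  have k4 : ∀ i : Fin d, Summable fun x => (starRingEnd ℂ) (P (x - Pi.single i 1)) * Q x :=
    fun i => summ_mul (fun x => P (x - Pi.single i 1)) Q (hm P hP _) hQ
  have e1 : ∀ i : Fin d, ∑' x, (starRingEnd ℂ) (P x) * Q (x + Pi.single i 1) =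
      ∑' x, (starRingEnd ℂ) (P (x - Pi.single i 1)) * Q x := by
    intro i
    have h3 : ∑' x : Zd d, (starRingEnd ℂ) (P (x + Pi.single i 1 - Pi.single i 1)) *
        Q (x + Pi.single i 1) = ∑' x, (starRingEnd ℂ) (P (x - Pi.single i 1)) * Q x :=
      shiftsum (fun x => (starRingEnd ℂ) (P (x - Pi.single i 1)) * Q x) (Pi.single i 1)
    refine Eq.trans (tsum_congr fun x => ?_) h3
    rw [add_sub_cancel_right]
  have e2 : ∀ i : Fin d, ∑' x, (starRingEnd ℂ) (P (x + Pi.single i 1)) * Q x =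
      ∑' x, (starRingEnd ℂ) (P x) * Q (x - Pi.single i 1) := by
    intro i
    have h3 : ∑' x : Zd d, (starRingEnd ℂ) (P (x + Pi.single i 1)) *
        Q (x + Pi.single i 1 - Pi.single i 1) =
        ∑' x, (starRingEnd ℂ) (P x) * Q (x - Pi.single i 1) :=
      shiftsum (fun x => (starRingEnd ℂ) (P x) * Q (x - Pi.single i 1)) (Pi.single i 1)
    refine Eq.trans (tsum_congr fun x => ?_) h3
    rw [add_sub_cancel_right]
  have f1 : (fun x => (starRingEnd ℂ) (P x) * S Q x) = fun x => ∑ i : Fin d,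
      ((starRingEnd ℂ) (P x) * Q (x + Pi.single i 1) +
        (starRingEnd ℂ) (P x) * Q (x - Pi.single i 1)) := by
    funext x
    unfold S
    rw [Finset.mul_sum]
    exact Finset.sum_congr rfl fun i _ => by ring
  have f2 : (fun x => (starRingEnd ℂ) (S P x) * Q x) = fun x => ∑ i : Fin d,
      ((starRingEnd ℂ) (P (x + Pi.single i 1)) * Q x +
        (starRingEnd ℂ) (P (x - Pi.single i 1)) * Q x) := by
    funext x
    unfold S
    rw [map_sum, Finset.sum_mul]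
    exact Finset.sum_congr rfl fun i _ => by rw [map_add]; ring
  rw [f1, f2]
  refine ⟨summable_sum fun i _ => (k1 i).add (k2 i), summable_sum fun i _ => (k3 i).add (k4 i), ?_⟩
  rw [Summable.tsum_finsetSum fun i _ => (k1 i).add (k2 i),
    Summable.tsum_finsetSum fun i _ => (k3 i).add (k4 i)]
  refine Finset.sum_congr rfl fun i _ => ?_
  rw [(k1 i).tsum_add (k2 i), (k3 i).tsum_add (k4 i), e1, e2]
  ring

/-- the imaginary part of the resolvent as a quadratic form -/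
theorem imag (V : Zd d → ℝ) (δ : ℝ) (g χ ψ : Zd d → ℂ)
    (hχ : Summable fun x => ‖χ x‖ ^ 2) (hψ : Summable fun x => ‖ψ x‖ ^ 2)
    (h1 : ∀ x, -S χ x + (V x : ℂ) * χ x + (δ : ℂ) * ψ x = g x)
    (h2 : ∀ x, -S ψ x + (V x : ℂ) * ψ x = (δ : ℂ) * χ x) :
    ∑' x, (starRingEnd ℂ) (g x) * ψ x = ((δ * (∑' x, ‖ψ x‖ ^ 2 + ∑' x, ‖χ x‖ ^ 2) : ℝ) : ℂ) := by
  obtain ⟨s1, s2, e1⟩ := symm χ ψ hχ hψ
  have e2 : ∀ x, (starRingEnd ℂ) (g x) * ψ x = ((δ * (‖ψ x‖ ^ 2 + ‖χ x‖ ^ 2) : ℝ) : ℂ) +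
      ((starRingEnd ℂ) (χ x) * S ψ x - (starRingEnd ℂ) (S χ x) * ψ x) := by
    intro x
    have h3 := h2 x
    rw [← h1 x]
    have n1 : ((‖ψ x‖ ^ 2 : ℝ) : ℂ) = (starRingEnd ℂ) (ψ x) * ψ x := by
      rw [← Complex.normSq_eq_norm_sq, Complex.normSq_eq_conj_mul_self]
    have n2 : ((‖χ x‖ ^ 2 : ℝ) : ℂ) = (starRingEnd ℂ) (χ x) * χ x := by
      rw [← Complex.normSq_eq_norm_sq, Complex.normSq_eq_conj_mul_self]
    push_cast at n1 n2 ⊢
    rw [n1, n2]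
    simp only [map_add, map_mul, map_neg, Complex.conj_ofReal]
    linear_combination ((starRingEnd ℂ) (χ x)) * h3
  rw [tsum_congr (L := .unconditional _) e2]
  have s3 : Summable fun x => ((δ * (‖ψ x‖ ^ 2 + ‖χ x‖ ^ 2) : ℝ) : ℂ) :=
    Complex.summable_ofReal.2 ((hψ.add hχ).mul_left δ)
  rw [s3.tsum_add (s1.sub s2), s1.tsum_sub s2, e1, sub_self, add_zero, ← Complex.ofReal_tsum,
    tsum_mul_left, hψ.tsum_add hχ]

/-- local smoothing for complex functions -/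
theorem SM_complex (σ ρ δ0 : ℝ) (g : ℝ → ℝ) (ξ : Zd d → ℝ) (h : SM d σ ρ δ0 g ξ) (E δ : ℝ)
    (hδ : δ0 ≤ δ) (hδ1 : δ ≤ 1 / 2) (u f : Zd d → ℂ)
    (hu : Summable fun x => ‖u x‖ ^ 2) (hf : Summable fun x => ‖f x‖ ^ 2)
    (heq : ∀ x, S u x + ((σ * ξ x : ℝ) : ℂ) * u x = (E : ℂ) * u x + f x) (a : Zd d)
    (ha : ‖a‖ ≤ ρ) :
    ‖u a‖ ^ 2 ≤ g δ * (5 * δ * ∑' x, ‖u x‖ ^ 2 + 2 * δ⁻¹ * ∑' x, ‖f x‖ ^ 2) := by
  have hn : ∀ (w : Zd d → ℂ) x, ‖w x‖ ^ 2 = (w x).re ^ 2 + (w x).im ^ 2 := by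
    intro w x
    rw [← Complex.normSq_eq_norm_sq, Complex.normSq_apply]
    ring
  have hre : ∀ w : Zd d → ℂ, (Summable fun x => ‖w x‖ ^ 2) → Summable fun x => (w x).re ^ 2 :=
    fun w hw => Summable.of_nonneg_of_le (fun x => sq_nonneg _) (fun x => by
      rw [hn w x]
      nlinarith [sq_nonneg (w x).im]) hw
  have him : ∀ w : Zd d → ℂ, (Summable fun x => ‖w x‖ ^ 2) → Summable fun x => (w x).im ^ 2 :=
    fun w hw => Summable.of_nonneg_of_le (fun x => sq_nonneg _) (fun x => by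
      rw [hn w x]
      nlinarith [sq_nonneg (w x).re]) hw
  have hsum : ∀ w : Zd d → ℂ, (Summable fun x => ‖w x‖ ^ 2) →
      ∑' x, ‖w x‖ ^ 2 = ∑' x, (w x).re ^ 2 + ∑' x, (w x).im ^ 2 := by
    intro w hw
    rw [← (hre w hw).tsum_add (him w hw)]
    exact tsum_congr (hn w)
  have r := h E δ hδ hδ1 (fun x => (u x).re) (fun x => (f x).re) (hre u hu) (hre f hf) (fun x => by
    have h3 := congrArg Complex.re (heq x)
    simpa [S] using h3) a ha
  have i := h E δ hδ hδ1 (fun x => (u x).im) (fun x => (f x).im) (him u hu) (him f hf) (fun x => by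
    have h3 := congrArg Complex.im (heq x)
    simpa [S] using h3) a ha
  rw [hn u a, hsum u hu, hsum f hf]
  calc (u a).re ^ 2 + (u a).im ^ 2 ≤ _ := add_le_add r i
    _ = _ := by ring

/-- the measure of an interval and the Poisson kernel -/
theorem poisson (m : Measure ℝ) [IsFiniteMeasure m] (E δ : ℝ) (hδ : 0 < δ) :
    m.real (Set.Icc (E - δ) (E + δ)) ≤
      2 * δ * (∫ t : ℝ, ((t : ℂ) - ((E : ℂ) + (δ : ℂ) * Complex.I))⁻¹ ∂m).im ∧
    (∫ t : ℝ, ((t : ℂ) - ((E : ℂ) - (δ : ℂ) * Complex.I))⁻¹ ∂m) =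
      (starRingEnd ℂ) (∫ t : ℝ, ((t : ℂ) - ((E : ℂ) + (δ : ℂ) * Complex.I))⁻¹ ∂m) := by
  have hnorm : ∀ t : ℝ, δ ≤ ‖((t : ℂ) - ((E : ℂ) + (δ : ℂ) * Complex.I))‖ := by
    intro t
    refine le_trans ?_ (Complex.abs_im_le_norm _)
    simp
    exact le_abs_self δ
  have hmeas : Measurable fun t : ℝ => ((t : ℂ) - ((E : ℂ) + (δ : ℂ) * Complex.I))⁻¹ := by
    fun_prop
  have hint : Integrable (fun t : ℝ => ((t : ℂ) - ((E : ℂ) + (δ : ℂ) * Complex.I))⁻¹) m := by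
    refine Integrable.of_bound (C := δ⁻¹) hmeas.aestronglyMeasurable
      (Filter.Eventually.of_forall fun t => ?_)
    rw [norm_inv]
    exact inv_anti₀ hδ (hnorm t)
  refine ⟨?_, ?_⟩
  · have him : ∀ t : ℝ, (((t : ℂ) - ((E : ℂ) + (δ : ℂ) * Complex.I))⁻¹).im =
        δ / ((t - E) ^ 2 + δ ^ 2) := by
      intro t
      rw [Complex.inv_im, Complex.normSq_apply]
      simp
      ring_nf
    have h1 : (∫ t : ℝ, ((t : ℂ) - ((E : ℂ) + (δ : ℂ) * Complex.I))⁻¹ ∂m).im =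
        ∫ t, δ / ((t - E) ^ 2 + δ ^ 2) ∂m := by
      have h2 := Complex.imCLM.integral_comp_comm hint
      simp only [Complex.imCLM_apply] at h2
      rw [← h2]
      exact integral_congr_ae (Filter.Eventually.of_forall him)
    have hint2 : Integrable (fun t : ℝ => δ / ((t - E) ^ 2 + δ ^ 2)) m := by
      have h3 := Complex.imCLM.integrable_comp hint
      refine h3.congr (Filter.Eventually.of_forall fun t => ?_)
      simpa using him t
    rw [h1]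
    have h4 : ∫ t, (Set.Icc (E - δ) (E + δ)).indicator (fun _ => 1 / (2 * δ)) t ∂m ≤
        ∫ t, δ / ((t - E) ^ 2 + δ ^ 2) ∂m := by
      apply integral_mono ((integrable_const _).indicator measurableSet_Icc) hint2
      intro t
      by_cases ht : t ∈ Set.Icc (E - δ) (E + δ)
      · simp only [Set.indicator_of_mem ht]
        rw [div_le_div_iff₀ (by positivity) (by positivity)]
        have h5 : (t - E) ^ 2 ≤ δ ^ 2 := by
          rw [Set.mem_Icc] at ht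
          apply sq_le_sq'
          · linarith [ht.1]
          · linarith [ht.2]
        nlinarith
      · simp only [Set.indicator_of_notMem ht]
        positivity
    rw [integral_indicator_const _ measurableSet_Icc, smul_eq_mul] at h4
    have h6 : m.real (Set.Icc (E - δ) (E + δ)) =
        2 * δ * (m.real (Set.Icc (E - δ) (E + δ)) * (1 / (2 * δ))) := by
      field_simp
    rw [h6]
    apply mul_le_mul_of_nonneg_left h4
    positivity
  · rw [← integral_conj]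
    refine integral_congr_ae (Filter.Eventually.of_forall fun t => ?_)
    simp only [map_inv₀, map_sub, map_add, map_mul, Complex.conj_ofReal, Complex.conj_I]
    congr 1
    ring

/-- **flat spectral measures** -/
theorem flat (σ ρ δ0 : ℝ) (gf : ℝ → ℝ) (ξ : Zd d → ℝ) (h : SM d σ ρ δ0 gf ξ) (V : Zd d → ℝ)
    (c0 : ℝ) (hV : ∀ x, V x = c0 - σ * ξ x) (m : Measure ℝ) [IsFiniteMeasure m] (E δ : ℝ)
    (hδ0 : 0 < δ) (hδ : δ0 ≤ δ) (hδ1 : δ ≤ 1 / 2) (hgf : 0 ≤ gf δ) (g : Zd d → ℂ)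
    (B : Finset (Zd d)) (hB : ∀ a ∈ B, ‖a‖ ≤ ρ) (hgB : ∀ a, a ∉ B → g a = 0)
    (hm : ∀ z : ℂ, z.im ≠ 0 → ∃ u : Zd d → ℂ, (Summable fun x => ‖u x‖ ^ 2) ∧
      (∀ x, -S u x + (V x : ℂ) * u x - z * u x = g x) ∧
      ∫ t : ℝ, ((t : ℂ) - z)⁻¹ ∂m = ∑' x, (starRingEnd ℂ) (g x) * u x) :
    m.real (Set.Icc (E - δ) (E + δ)) ≤ 10 * δ * gf δ * (∑ a ∈ B, ‖g a‖) ^ 2 := by
  obtain ⟨u1, hu1, eq1, int1⟩ := hm ((E : ℂ) + (δ : ℂ) * Complex.I) (by simp [hδ0.ne'])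
  obtain ⟨u2, hu2, eq2, int2⟩ := hm ((E : ℂ) - (δ : ℂ) * Complex.I) (by simp [hδ0.ne'])
  obtain ⟨p1, p2⟩ := poisson m E δ hδ0
  rw [int1] at p1 p2
  rw [int2] at p2
  -- the two combinations
  obtain ⟨ψ, hψ⟩ : ∃ ψ : Zd d → ℂ, ψ = fun x => (u1 x - u2 x) / (2 * Complex.I) := ⟨_, rfl⟩
  obtain ⟨χ, hχ⟩ : ∃ χ : Zd d → ℂ, χ = fun x => (u1 x + u2 x) / 2 := ⟨_, rfl⟩
  have hI : (2 * Complex.I) ≠ 0 := by simp
  have sψ : Summable fun x => ‖ψ x‖ ^ 2 := by
    refine Summable.of_nonneg_of_le (fun x => by positivity) (fun x => ?_) (hu1.add hu2)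
    rw [hψ]
    simp only
    rw [norm_div]
    have e1 : ‖(2 * Complex.I : ℂ)‖ = 2 := by simp
    rw [e1]
    have e2 := norm_sub_le (u1 x) (u2 x)
    have e3 : (‖u1 x - u2 x‖ / 2) ^ 2 ≤ ((‖u1 x‖ + ‖u2 x‖) / 2) ^ 2 := by gcongr
    nlinarith [sq_nonneg (‖u1 x‖ - ‖u2 x‖), sq_nonneg (‖u1 x‖), sq_nonneg (‖u2 x‖)]
  have sχ : Summable fun x => ‖χ x‖ ^ 2 := by
    refine Summable.of_nonneg_of_le (fun x => by positivity) (fun x => ?_) (hu1.add hu2)
    rw [hχ]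
    simp only
    rw [norm_div]
    have e1 : ‖(2 : ℂ)‖ = 2 := by simp
    rw [e1]
    have e2 := norm_add_le (u1 x) (u2 x)
    have e3 : (‖u1 x + u2 x‖ / 2) ^ 2 ≤ ((‖u1 x‖ + ‖u2 x‖) / 2) ^ 2 := by gcongr
    nlinarith [sq_nonneg (‖u1 x‖ - ‖u2 x‖), sq_nonneg (‖u1 x‖), sq_nonneg (‖u2 x‖)]
  have Sψ : ∀ x, S ψ x = (S u1 x - S u2 x) / (2 * Complex.I) := by
    intro x
    rw [hψ]
    unfold S
    rw [← Finset.sum_sub_distrib, Finset.sum_div]
    exact Finset.sum_congr rfl fun i _ => by ring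
  have Sχ : ∀ x, S χ x = (S u1 x + S u2 x) / 2 := by
    intro x
    rw [hχ]
    unfold S
    rw [← Finset.sum_add_distrib, Finset.sum_div]
    exact Finset.sum_congr rfl fun i _ => by ring
  have h1 : ∀ x, -S χ x + ((V x - E : ℝ) : ℂ) * χ x + (δ : ℂ) * ψ x = g x := by
    intro x
    have a1 := eq1 x
    have a2 := eq2 x
    rw [Sχ]
    have e1 : ψ x = -Complex.I * (u1 x - u2 x) / 2 := by
      rw [hψ]
      simp only
      field_simp
      ring_nf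
      rw [Complex.I_sq]
      ring
    rw [e1, hχ]
    push_cast
    linear_combination (1 / 2 : ℂ) * a1 + (1 / 2 : ℂ) * a2
  have h2 : ∀ x, -S ψ x + ((V x - E : ℝ) : ℂ) * ψ x = (δ : ℂ) * χ x := by
    intro x
    have a1 := eq1 x
    have a2 := eq2 x
    rw [Sψ, hψ, hχ]
    simp only
    push_cast
    field_simp
    linear_combination a1 - a2
  have h3 := imag (fun x => V x - E) δ g χ ψ sχ sψ h1 h2
  obtain ⟨F, hF⟩ : ∃ F : ℝ, F = δ * (∑' x, ‖ψ x‖ ^ 2 + ∑' x, ‖χ x‖ ^ 2) := ⟨_, rfl⟩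
  rw [← hF] at h3
  have hF0 : 0 ≤ F := by
    rw [hF]
    have e1 : 0 ≤ ∑' x, ‖ψ x‖ ^ 2 := tsum_nonneg fun x => by positivity
    have e2 : 0 ≤ ∑' x, ‖χ x‖ ^ 2 := tsum_nonneg fun x => by positivity
    positivity
  -- finite sums
  have hfin : ∀ w : Zd d → ℂ, ∑' x, (starRingEnd ℂ) (g x) * w x =
      ∑ x ∈ B, (starRingEnd ℂ) (g x) * w x := by
    intro w
    apply tsum_eq_sum
    intro x hx
    rw [hgB x hx]
    simp
  have h4 : (∑' x, (starRingEnd ℂ) (g x) * u1 x).im = F := by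
    have e1 : (∑' x, (starRingEnd ℂ) (g x) * ψ x) = ((∑' x, (starRingEnd ℂ) (g x) * u1 x) -
        ∑' x, (starRingEnd ℂ) (g x) * u2 x) / (2 * Complex.I) := by
      rw [hfin, hfin, hfin, ← Finset.sum_sub_distrib, Finset.sum_div, hψ]
      exact Finset.sum_congr rfl fun x _ => by ring
    rw [p2, Complex.sub_conj, h3] at e1
    have e2 : ((F : ℝ) : ℂ) = (((∑' x, (starRingEnd ℂ) (g x) * u1 x).im : ℝ) : ℂ) := by
      rw [e1]
      push_cast
      field_simp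
    exact (Complex.ofReal_injective e2).symm
  rw [h4] at p1
  -- smoothing
  have h5 : ∀ a ∈ B, ‖ψ a‖ ^ 2 ≤ 5 * gf δ * F := by
    intro a ha
    have e1 := SM_complex σ ρ δ0 gf ξ h (c0 - E) δ hδ hδ1 ψ (fun x => -((δ : ℂ) * χ x)) sψ (by
      have : (fun x => ‖-((δ : ℂ) * χ x)‖ ^ 2) = fun x => δ ^ 2 * ‖χ x‖ ^ 2 := by
        funext x
        rw [norm_neg, norm_mul, mul_pow, Complex.norm_real, Real.norm_of_nonneg hδ0.le]
      rw [this]
      exact sχ.mul_left _) (fun x => by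
        have e2 := h2 x
        rw [hV x] at e2
        push_cast at e2 ⊢
        linear_combination -e2) a (hB a ha)
    have e3 : ∑' x, ‖-((δ : ℂ) * χ x)‖ ^ 2 = δ ^ 2 * ∑' x, ‖χ x‖ ^ 2 := by
      rw [← tsum_mul_left]
      refine tsum_congr fun x => ?_
      rw [norm_neg, norm_mul, mul_pow, Complex.norm_real, Real.norm_of_nonneg hδ0.le]
    rw [e3] at e1
    refine e1.trans ?_
    have e4 : 0 ≤ ∑' x, ‖χ x‖ ^ 2 := tsum_nonneg fun x => by positivity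
    calc gf δ * (5 * δ * ∑' x, ‖ψ x‖ ^ 2 + 2 * δ⁻¹ * (δ ^ 2 * ∑' x, ‖χ x‖ ^ 2)) =
        gf δ * (5 * δ * ∑' x, ‖ψ x‖ ^ 2 + 2 * (δ * ∑' x, ‖χ x‖ ^ 2)) := by
          field_simp
      _ ≤ gf δ * (5 * δ * ∑' x, ‖ψ x‖ ^ 2 + 5 * (δ * ∑' x, ‖χ x‖ ^ 2)) := by
          gcongr
          norm_num
      _ = _ := by
          rw [hF]
          ring
  -- Cauchy-Schwarz
  have h6 : F ≤ (∑ a ∈ B, ‖g a‖) * Real.sqrt (5 * gf δ * F) := by
    have e1 : F = ‖∑ x ∈ B, (starRingEnd ℂ) (g x) * ψ x‖ := by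
      rw [← hfin, h3, Complex.norm_real, Real.norm_of_nonneg hF0]
    rw [e1, Finset.sum_mul]
    refine (norm_sum_le _ _).trans (Finset.sum_le_sum fun a ha => ?_)
    rw [norm_mul, Complex.norm_conj, ← e1]
    apply mul_le_mul_of_nonneg_left _ (norm_nonneg _)
    exact Real.le_sqrt_of_sq_le (h5 a ha)
  have h7 : F ≤ 5 * gf δ * (∑ a ∈ B, ‖g a‖) ^ 2 := by
    rcases hF0.eq_or_lt with h0 | h0
    · rw [← h0]
      positivity
    · have e1 := Real.sq_sqrt (show 0 ≤ 5 * gf δ * F by positivity)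
      have e2 : F ^ 2 ≤ (∑ a ∈ B, ‖g a‖) ^ 2 * (5 * gf δ * F) := by
        calc F ^ 2 ≤ ((∑ a ∈ B, ‖g a‖) * Real.sqrt (5 * gf δ * F)) ^ 2 :=
              pow_le_pow_left₀ hF0 h6 2
          _ = _ := by rw [mul_pow, e1]
      have e3 : F * F ≤ (5 * gf δ * (∑ a ∈ B, ‖g a‖) ^ 2) * F := by
        calc F * F = F ^ 2 := by ring
          _ ≤ _ := e2
          _ = _ := by ring
      exact le_of_mul_le_mul_right e3 h0
  calc m.real (Set.Icc (E - δ) (E + δ)) ≤ 2 * δ * F := p1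
    _ ≤ 2 * δ * (5 * gf δ * (∑ a ∈ B, ‖g a‖) ^ 2) := by gcongr
    _ = _ := by ring

end Pool.Agent.W788.LD.Spec
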