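import Pool.Agent.W788.MFP.Site
import Pool.Agent.W788.MF2.FormG

/-! Cutting off a solution of `(H - E) u = f`. -/

set_option autoImplicit false
set_option linter.unusedSectionVars false

open scoped BigOperators

namespace Pool.Agent.W788.LD.Cut2

open Pool.Agent.W788.MFP.Four Pool.Agent.W788.MFP.Dos Pool.Agent.W788.MFP.Form
open Pool.Agent.W788.MFP.Ball Pool.Agent.W788.MFP.Crit Pool.Agent.W788.MFP.Cut
open Pool.Agent.W788.MFP.Site
open Pool.Agent.W788.MF2.FormG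
open Pool.Agent.H4R2.LO (Zd)
open Pool.Agent.H695R3.AN (lf lf_inj lf_add lf_sub)

variable {d L : ℕ} [NeZero L]

/-- **cutting off** -/
theorem cutf (hd : 1 ≤ d) (σ E δ t ℓ : ℝ) (hδ : 0 < δ) (ht : 0 ≤ t) (hσ : 0 ≤ σ)
    (hσt : σ * t ≤ 1 / 2) (hℓ : 2 * d ≤ δ * ℓ) (hL : 4 * ℓ + 4 < L) (ω u f : Zd d → ℝ)
    (hu : Summable fun x => u x ^ 2) (hfs : Summable fun x => f x ^ 2)
    (heq : ∀ x, ∑ i, (u (x + Pi.single i 1) + u (x - Pi.single i 1)) + σ * ω x * u x =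
      E * u x + f x)
    (hf : ∀ w : T d L → ℝ, |∑ x, ω (lf x) * w x ^ 2| ≤ t * q (J E δ) w) :
    q (J E δ) (fun y : T d L => φ ℓ (lf y) * u (lf y)) ≤
      5 * δ * ∑' x, u x ^ 2 + 2 * δ⁻¹ * ∑' x, f x ^ 2 := by
  have hd0 : (1 : ℝ) ≤ d := by exact_mod_cast hd
  have hℓ0 : 0 < ℓ := by
    by_contra hcon
    push Not at hcon
    have := mul_nonpos_of_nonneg_of_nonpos hδ.le hcon
    linarith
  obtain ⟨v, hv⟩ : ∃ v : T d L → ℝ, v = fun y => φ ℓ (lf y) * u (lf y) := ⟨_, rfl⟩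
  rw [← hv]
  obtain ⟨r, hr⟩ : ∃ r : T d L → ℝ, r = fun y => ∑ i : Fin d,
    ((φ ℓ (lf (y + Pi.single i 1)) * u (lf (y + Pi.single i 1)) -
        φ ℓ (lf y) * u (lf y + Pi.single i 1)) +
     (φ ℓ (lf (y - Pi.single i 1)) * u (lf (y - Pi.single i 1)) -
        φ ℓ (lf y) * u (lf y - Pi.single i 1))) := ⟨_, rfl⟩
  have hvr : ∀ x, Op (fun k => adj k - E) v x = -(σ * ω (lf x) * v x) +
      (r x + φ ℓ (lf x) * f (lf x)) := by
    intro x
    rw [Op_adj]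
    simp only [hv, hr]
    have h1 := heq (lf x)
    have h2 : ∑ i : Fin d,
        ((φ ℓ (lf (x + Pi.single i 1)) * u (lf (x + Pi.single i 1)) -
            φ ℓ (lf x) * u (lf x + Pi.single i 1)) +
         (φ ℓ (lf (x - Pi.single i 1)) * u (lf (x - Pi.single i 1)) -
            φ ℓ (lf x) * u (lf x - Pi.single i 1))) =
        ∑ i : Fin d, (φ ℓ (lf (x + Pi.single i 1)) * u (lf (x + Pi.single i 1)) +
          φ ℓ (lf (x - Pi.single i 1)) * u (lf (x - Pi.single i 1))) -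
        φ ℓ (lf x) * ∑ i : Fin d, (u (lf x + Pi.single i 1) + u (lf x - Pi.single i 1)) := by
      rw [Finset.mul_sum, ← Finset.sum_sub_distrib]
      exact Finset.sum_congr rfl fun i _ => by ring
    rw [h2]
    have h3 : φ ℓ (lf x) * ∑ i : Fin d, (u (lf x + Pi.single i 1) + u (lf x - Pi.single i 1)) =
        φ ℓ (lf x) * (E * u (lf x) + f (lf x) - σ * ω (lf x) * u (lf x)) := by
      rw [← h1]
      ring
    rw [h3]
    ring
  have h1 := eig E δ t σ hδ ht hσ hσt (fun x => ω (lf x)) v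
    (fun x => r x + φ ℓ (lf x) * f (lf x)) hf hvr
  have hS0 : 0 ≤ ∑' x, u x ^ 2 := tsum_nonneg fun x => sq_nonneg _
  have h2 : ∑ x, v x ^ 2 ≤ ∑' x, u x ^ 2 := by
    refine le_trans (Finset.sum_le_sum fun x _ => ?_)
      (sum_lf (L := L) (fun x => u x ^ 2) (fun x => sq_nonneg _) hu)
    rw [hv]
    simp only
    rw [mul_pow]
    apply mul_le_of_le_one_left (sq_nonneg _)
    exact pow_le_one₀ (φ_nonneg _ _) (φ_le_one _ _)
  have hplus : ∀ i : Fin d, ∑ y : T d L, u (lf y + Pi.single i 1) ^ 2 ≤ ∑' x, u x ^ 2 := by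
    intro i
    have h5 : Summable (fun x : Zd d => u (x + Pi.single i 1) ^ 2) :=
      (Equiv.addRight (Pi.single i 1 : Zd d)).summable_iff.2 hu
    refine (sum_lf (L := L) (fun x => u (x + Pi.single i 1) ^ 2) (fun x => sq_nonneg _) h5).trans ?_
    exact le_of_eq ((Equiv.addRight (Pi.single i 1 : Zd d)).tsum_eq fun x => u x ^ 2)
  have hminus : ∀ i : Fin d, ∑ y : T d L, u (lf y - Pi.single i 1) ^ 2 ≤ ∑' x, u x ^ 2 := by
    intro i
    have h5 : Summable (fun x : Zd d => u (x - Pi.single i 1) ^ 2) :=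
      (Equiv.subRight (Pi.single i 1 : Zd d)).summable_iff.2 hu
    refine (sum_lf (L := L) (fun x => u (x - Pi.single i 1) ^ 2) (fun x => sq_nonneg _) h5).trans ?_
    exact le_of_eq ((Equiv.subRight (Pi.single i 1 : Zd d)).tsum_eq fun x => u x ^ 2)
  have h3 : ∑ x, r x ^ 2 ≤ (2 * d / ℓ) ^ 2 * ∑' x, u x ^ 2 := by
    have h4 : ∀ y, r y ^ 2 ≤ d * ∑ i : Fin d, (2 * (1 / ℓ) ^ 2 * (u (lf y + Pi.single i 1) ^ 2 +
        u (lf y - Pi.single i 1) ^ 2)) := by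
      intro y
      rw [hr]
      simp only
      refine sq_sum_le_card_mul_sum_sq.trans ?_
      rw [Finset.card_univ, Fintype.card_fin]
      apply mul_le_mul_of_nonneg_left _ (by positivity)
      refine Finset.sum_le_sum fun i _ => ?_
      obtain ⟨s1, s2⟩ := step ℓ hℓ0 hL u y i
      obtain ⟨A, hA⟩ : ∃ A, A = φ ℓ (lf (y + Pi.single i 1)) * u (lf (y + Pi.single i 1)) -
        φ ℓ (lf y) * u (lf y + Pi.single i 1) := ⟨_, rfl⟩
      obtain ⟨B, hB⟩ : ∃ B, B = φ ℓ (lf (y - Pi.single i 1)) * u (lf (y - Pi.single i 1)) -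
        φ ℓ (lf y) * u (lf y - Pi.single i 1) := ⟨_, rfl⟩
      rw [← hA] at s1
      rw [← hB] at s2
      rw [← hA, ← hB]
      have e1 : A ^ 2 ≤ (1 / ℓ) ^ 2 * u (lf y + Pi.single i 1) ^ 2 := by
        rw [← sq_abs A, ← sq_abs (u (lf y + Pi.single i 1)), ← mul_pow]
        exact pow_le_pow_left₀ (abs_nonneg _) s1 2
      have e2 : B ^ 2 ≤ (1 / ℓ) ^ 2 * u (lf y - Pi.single i 1) ^ 2 := by
        rw [← sq_abs B, ← sq_abs (u (lf y - Pi.single i 1)), ← mul_pow]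
        exact pow_le_pow_left₀ (abs_nonneg _) s2 2
      have e3 : (A + B) ^ 2 ≤ 2 * (A ^ 2 + B ^ 2) := add_sq_le
      linarith
    refine (Finset.sum_le_sum fun y _ => h4 y).trans ?_
    rw [← Finset.mul_sum, Finset.sum_comm]
    have h5 : ∀ i : Fin d, ∑ y : T d L, (2 * (1 / ℓ) ^ 2 * (u (lf y + Pi.single i 1) ^ 2 +
        u (lf y - Pi.single i 1) ^ 2)) ≤ 4 * (1 / ℓ) ^ 2 * ∑' x, u x ^ 2 := by
      intro i
      rw [← Finset.mul_sum, Finset.sum_add_distrib]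
      have h6 := hplus i
      have h7 := hminus i
      calc 2 * (1 / ℓ) ^ 2 * (∑ y : T d L, u (lf y + Pi.single i 1) ^ 2 +
            ∑ y : T d L, u (lf y - Pi.single i 1) ^ 2) ≤
          2 * (1 / ℓ) ^ 2 * (∑' x, u x ^ 2 + ∑' x, u x ^ 2) := by gcongr
        _ = _ := by ring
    calc (d : ℝ) * ∑ i : Fin d, ∑ y : T d L, (2 * (1 / ℓ) ^ 2 * (u (lf y + Pi.single i 1) ^ 2 +
          u (lf y - Pi.single i 1) ^ 2)) ≤
        d * ∑ i : Fin d, (4 * (1 / ℓ) ^ 2 * ∑' x, u x ^ 2) := by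
          apply mul_le_mul_of_nonneg_left _ (by positivity)
          exact Finset.sum_le_sum fun i _ => h5 i
      _ = _ := by
        rw [Finset.sum_const, Finset.card_univ, Fintype.card_fin, nsmul_eq_mul]
        ring
  have h4 : 2 * d / ℓ ≤ δ := by
    rw [div_le_iff₀ hℓ0]
    exact hℓ
  have h5 : ∑ x, r x ^ 2 ≤ δ ^ 2 * ∑' x, u x ^ 2 := by
    refine h3.trans (mul_le_mul_of_nonneg_right ?_ hS0)
    exact pow_le_pow_left₀ (by positivity) h4 2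
  have h6 : ∑ x : T d L, (φ ℓ (lf x) * f (lf x)) ^ 2 ≤ ∑' x, f x ^ 2 := by
    refine le_trans (Finset.sum_le_sum fun x _ => ?_)
      (sum_lf (L := L) (fun x => f x ^ 2) (fun x => sq_nonneg _) hfs)
    rw [mul_pow]
    apply mul_le_of_le_one_left (sq_nonneg _)
    exact pow_le_one₀ (φ_nonneg _ _) (φ_le_one _ _)
  have h7 : ∑ x, (r x + φ ℓ (lf x) * f (lf x)) ^ 2 ≤
      2 * (δ ^ 2 * ∑' x, u x ^ 2) + 2 * ∑' x, f x ^ 2 := by
    have e1 : ∑ x, (r x + φ ℓ (lf x) * f (lf x)) ^ 2 ≤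
        ∑ x, (2 * r x ^ 2 + 2 * (φ ℓ (lf x) * f (lf x)) ^ 2) :=
      Finset.sum_le_sum fun x _ => by
        nlinarith [sq_nonneg (r x - φ ℓ (lf x) * f (lf x))]
    rw [Finset.sum_add_distrib, ← Finset.mul_sum, ← Finset.mul_sum] at e1
    linarith
  calc q (J E δ) v ≤ 3 * δ * ∑ x, v x ^ 2 +
        δ⁻¹ * ∑ x, (r x + φ ℓ (lf x) * f (lf x)) ^ 2 := h1
    _ ≤ 3 * δ * ∑' x, u x ^ 2 +
        δ⁻¹ * (2 * (δ ^ 2 * ∑' x, u x ^ 2) + 2 * ∑' x, f x ^ 2) := by gcongr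
    _ = _ := by
      field_simp
      ring

/-- the value at the origin -/
theorem site0 (hd : 1 ≤ d) (σ E δ ℓ g : ℝ) (hδ : 0 < δ) (hg : GB d L δ g) (hσ : 0 < σ)
    (hℓ : ℓ = 2 * d / δ) (hL : 4 * ℓ + 4 < L)
    (ω u f : Zd d → ℝ) (hu : Summable fun x => u x ^ 2) (hfs : Summable fun x => f x ^ 2)
    (heq : ∀ x, ∑ i, (u (x + Pi.single i 1) + u (x - Pi.single i 1)) + σ * ω x * u x =
      E * u x + f x)
    (hf : ∀ (w : T d L → ℝ),
      |∑ x, ω (lf x) * w x ^ 2| ≤ 2 * (1 / (4 * σ)) * q (J E δ) w) :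
    u 0 ^ 2 ≤ g * (5 * δ * ∑' x, u x ^ 2 + 2 * δ⁻¹ * ∑' x, f x ^ 2) := by
  have hd3 : (1 : ℝ) ≤ d := by exact_mod_cast hd
  have hℓδ : δ * ℓ = 2 * d := by
    rw [hℓ]
    field_simp
  have hℓ0 : 0 < ℓ := by rw [hℓ]; positivity
  have hq := cutf hd σ E δ (2 * (1 / (4 * σ))) ℓ hδ (by positivity) hσ.le (by
    have : σ * (2 * (1 / (4 * σ))) = 1 / 2 := by
      field_simp
      norm_num
    linarith) hℓδ.ge hL ω u f hu hfs heq hf
  obtain ⟨v, hv⟩ : ∃ v : T d L → ℝ, v = fun y => φ ℓ (lf y) * u (lf y) := ⟨_, rfl⟩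
  rw [← hv] at hq
  have hg0 := GB_nonneg δ g hδ hg
  have hvz : v (z L 0) = u 0 := by
    rw [hv]
    simp only
    rw [lf_z 0 (by rw [norm_zero]; linarith), φ_one ℓ hℓ0 0 (by rw [norm_zero]; exact hℓ0.le),
      one_mul]
  have h1 := Pool.Agent.W788.MF2.FormG.point E δ g hδ hg v (z L 0)
  rw [hvz] at h1
  exact h1.trans (mul_le_mul_of_nonneg_left hq hg0)

end Pool.Agent.W788.LD.Cut2
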