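import Pool.Agent.W788.MF2.FinG
import Pool.Agent.W788.LD.Cut2

/-! Local smoothing at all sites of a box and at all scales above the mean free path scale. -/

set_option autoImplicit false
set_option linter.unusedSectionVars false

open scoped BigOperators
open MeasureTheory

namespace Pool.Agent.W788.LD.Main

open Pool.Agent.W788.MFP.Four Pool.Agent.W788.MFP.Form
open Pool.Agent.W788.MF2.FormG Pool.Agent.W788.MF2.Dom Pool.Agent.W788.MF2.FinG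
open Pool.Agent.W788
open Pool.Agent.H4R2
open Pool.Agent.H4R2.LO (Zd)
open Pool.Agent.H695R3.AN (lf lf_inj lf_add lf_sub)

variable {d : ℕ}

/-- local smoothing at the sites of a box, at the scales from `δ0` on -/
def SM (d : ℕ) (σ ρ δ0 : ℝ) (g : ℝ → ℝ) (ξ : Zd d → ℝ) : Prop :=
  ∀ (E δ : ℝ), δ0 ≤ δ → δ ≤ 1 / 2 → ∀ u f : Zd d → ℝ,
    (Summable fun x => u x ^ 2) → (Summable fun x => f x ^ 2) →
    (∀ x, ∑ i, (u (x + Pi.single i 1) + u (x - Pi.single i 1)) + σ * ξ x * u x =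
      E * u x + f x) →
    ∀ a : Zd d, ‖a‖ ≤ ρ →
    u a ^ 2 ≤ g δ * (5 * δ * ∑' x, u x ^ 2 + 2 * δ⁻¹ * ∑' x, f x ^ 2)

theorem J_mono (L : ℕ) [NeZero L] (E δ δ' : ℝ) (h0 : 0 ≤ δ) (h : δ ≤ δ') (k : T d L) :
    J E δ k ≤ J E δ' k := by
  unfold J
  apply Real.sqrt_le_sqrt
  have := pow_le_pow_left₀ h0 h 2
  linarith

theorem tsum_shiftR (u : Zd d → ℝ) (a : Zd d) : ∑' x, u (x + a) ^ 2 = ∑' x, u x ^ 2 :=
  (Equiv.addRight a).tsum_eq fun x => u x ^ 2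

theorem sum_shiftR (u : Zd d → ℝ) (a : Zd d) (h : Summable fun x => u x ^ 2) :
    Summable fun x => u (x + a) ^ 2 :=
  (Equiv.addRight a).summable_iff.2 h

/-- the lattice event -/
theorem mainS (hd : 1 ≤ d) (μ : Measure ℝ) [IsProbabilityMeasure μ] (c : ℝ) (hμ : DomBy μ c)
    (σ ρ δ g : ℝ) (hσ : 0 < σ) (hρ : 1 ≤ ρ) (hδ0 : 0 < δ) (hδ1 : δ ≤ 1 / 2) (hg0 : 0 ≤ g)
    (gf : ℝ → ℝ) (hgf : gf δ ≤ g)
    (hg : ∀ (L : ℕ) [NeZero L] (δ' : ℝ), 1 / (L : ℝ) ≤ δ' → δ' ≤ 1 / 2 → GB d L δ' (gf δ'))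
    (p : ℕ) (hp : p ≠ 0) (ε : ℝ)
    (hε : (3 * ρ) ^ d * ((8 * d / δ) * ((32 * p * g * c ^ 2 * σ ^ 2 / δ) ^ p *
      (13 * d / δ) ^ d)) ≤ ε) :
    ∃ G : Set (Zd d → ℝ), MeasurableSet G ∧
      1 - ε ≤ (Measure.infinitePi fun _ : Zd d => μ).real G ∧ ∀ ξ ∈ G, SM d σ ρ δ gf ξ := by
  have hd1 : (1 : ℝ) ≤ d := by exact_mod_cast hd
  obtain ⟨ℓ, hℓ⟩ : ∃ ℓ, ℓ = 2 * d / δ := ⟨_, rfl⟩
  obtain ⟨L, hLdef⟩ : ∃ L : ℕ, L = ⌊4 * ℓ + 4⌋₊ + 1 := ⟨_, rfl⟩
  have hLne : NeZero L := ⟨by omega⟩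
  have hℓ0 : 0 < ℓ := by rw [hℓ]; positivity
  have hL : 4 * ℓ + 4 < L := by
    rw [hLdef]
    push_cast
    exact Nat.lt_floor_add_one _
  have hL2 : L ≤ 4 * ℓ + 5 := by
    rw [hLdef]
    push_cast
    have := Nat.floor_le (show 0 ≤ 4 * ℓ + 4 by linarith)
    linarith
  have hL0 : (0 : ℝ) < L := by exact_mod_cast Nat.pos_of_ne_zero (NeZero.ne L)
  have hLδ : 1 / (L : ℝ) ≤ δ := by
    rw [div_le_iff₀ hL0]
    have e1 : δ * ℓ = 2 * d := by
      rw [hℓ]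
      field_simp
    have : δ * ℓ ≤ δ * L := by
      apply mul_le_mul_of_nonneg_left _ hδ0.le
      linarith
    linarith
  have hGB : GB d L δ g := fun E => (hg L δ hLδ hδ1 E).trans hgf
  have hLd : (L : ℝ) ≤ 13 * d / δ := by
    have h1 : ℓ = 2 * (d * (1 / δ)) := by rw [hℓ]; ring
    have h2 : 2 ≤ 1 / δ := by
      rw [le_div_iff₀ hδ0]
      linarith
    have h3 : 1 * (1 / δ) ≤ d * (1 / δ) := by gcongr
    have h4 : 13 * d / δ = 13 * (d * (1 / δ)) := by ring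
    rw [h4]
    linarith
  obtain ⟨G, hG, hP, hb⟩ := formE (d := d) (L := L) hd μ c hμ δ g hδ0 hδ1 hGB (1 / (4 * σ))
    (by positivity) p hp
  have hP2 : (3 * ρ) ^ d * (Measure.pi fun _ : T d L => μ).real Gᶜ ≤ ε := by
    refine le_trans ?_ hε
    apply mul_le_mul_of_nonneg_left _ (by positivity)
    refine hP.trans ?_
    apply mul_le_mul_of_nonneg_left _ (by positivity)
    have e1 : 2 * p * g * δ⁻¹ * c ^ 2 / (1 / (4 * σ)) ^ 2 = 32 * p * g * c ^ 2 * σ ^ 2 / δ := by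
      field_simp
      ring
    rw [e1]
    unfold NN
    gcongr
  set B : Finset (Zd d) := LO.bx (0 : Zd d) ⌊ρ⌋₊ with hB
  set R : Zd d → (Zd d → ℝ) → (T d L → ℝ) := fun a ω y => ω (lf y + a) with hR
  have hRm : ∀ a, Measurable (R a) := fun a => measurable_pi_iff.2 fun y => measurable_pi_apply _
  have hPa : ∀ a, (Measure.infinitePi fun _ : Zd d => μ).real (R a ⁻¹' G)ᶜ =
      (Measure.pi fun _ : T d L => μ).real Gᶜ := by
    intro a
    have h1 : (Measure.infinitePi fun _ : Zd d => μ).real (R a ⁻¹' Gᶜ) =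
        (Measure.pi fun _ : T d L => μ).real Gᶜ := by
      rw [← Gen3.law_shift (d := d) (L := L) μ a, map_measureReal_apply (hRm a) hG.compl]
    exact h1
  have hm : MeasurableSet (⋂ a ∈ B, R a ⁻¹' G) :=
    Finset.measurableSet_biInter _ fun a _ => hRm a hG
  refine ⟨⋂ a ∈ B, R a ⁻¹' G, hm, ?_, ?_⟩
  · have h2 := probReal_add_probReal_compl (μ := Measure.infinitePi fun _ : Zd d => μ) hm
    have h3 : (Measure.infinitePi fun _ : Zd d => μ).real (⋂ a ∈ B, R a ⁻¹' G)ᶜ ≤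
        (3 * ρ) ^ d * (Measure.pi fun _ : T d L => μ).real Gᶜ := by
      have e1 : (⋂ a ∈ B, R a ⁻¹' G)ᶜ = ⋃ a ∈ B, (R a ⁻¹' G)ᶜ := by
        simp only [Set.compl_iInter]
      rw [e1]
      refine (measureReal_biUnion_finset_le _ _).trans
        ((Finset.sum_le_sum fun a _ => (hPa a).le).trans ?_)
      rw [Finset.sum_const, nsmul_eq_mul, hB, LO.Em.card_bx]
      apply mul_le_mul_of_nonneg_right _ measureReal_nonneg
      push_cast
      apply pow_le_pow_left₀ (by positivity)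
      have := Nat.floor_le (show 0 ≤ ρ by linarith)
      linarith
    linarith
  · intro ξ hξ E δ' hδ' hδ1' u f hu hfs heq a ha
    have haB : a ∈ B := Gen3.norm_zd a ρ ha
    have hV : R a ξ ∈ G := Set.mem_iInter₂.1 hξ a haB
    have hδ0' : 0 < δ' := hδ0.trans_le hδ'
    have hℓ' : 2 * (d : ℝ) / δ' ≤ ℓ := by
      rw [hℓ]
      exact div_le_div_of_nonneg_left (by positivity) hδ0 hδ'
    have c1 := Cut2.site0 (L := L) hd σ E δ' (2 * d / δ') (gf δ') hδ0'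
      (hg L δ' (hLδ.trans hδ') hδ1') hσ rfl (by linarith) (fun x => ξ (x + a))
      (fun x => u (x + a)) (fun x => f (x + a)) (sum_shiftR u a hu) (sum_shiftR f a hfs) (by
        intro x
        have h1 := heq (x + a)
        have h2 : ∀ i : Fin d, x + Pi.single i 1 + a = x + a + Pi.single i 1 := fun i => by abel
        have h3 : ∀ i : Fin d, x - Pi.single i 1 + a = x + a - Pi.single i 1 := fun i => by abel
        simp only [h2, h3]
        exact h1) (by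
        intro w
        have h4 := hb _ hV E w
        have h5 : q (J E δ) w ≤ q (J E δ') w := q_mono _ _ _ fun k => J_mono L E δ δ' hδ0.le hδ' k
        refine h4.trans ?_
        apply mul_le_mul_of_nonneg_left h5
        positivity)
    simp only [zero_add] at c1
    rw [tsum_shiftR, tsum_shiftR] at c1
    exact c1

/-- with the density of states bound `Cg log(1/δ)^m` -/
theorem paramS (hd : 1 ≤ d) (μ : Measure ℝ) [IsProbabilityMeasure μ] (c : ℝ) (hμ : DomBy μ c)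
    (m : ℕ) (Cg : ℝ) (hCg : 0 < Cg)
    (hg : ∀ (L : ℕ) [NeZero L] (δ : ℝ), 1 / (L : ℝ) ≤ δ → δ ≤ 1 / 2 →
      GB d L δ (Cg * Real.log (1 / δ) ^ m))
    (σ ρ δ : ℝ) (hσ : 0 < σ) (hσ1 : σ ≤ 1 / 2) (hρ : 1 / σ ≤ ρ)
    (hδ : δ = AA d m Cg c * (σ ^ 2 * Real.log (1 / σ) ^ m * Real.log ρ)) (hδ1 : δ ≤ 1 / 2) :
    ∃ G : Set (Zd d → ℝ), MeasurableSet G ∧
      1 - 1 / ρ ≤ (Measure.infinitePi fun _ : Zd d => μ).real G ∧
      ∀ ξ ∈ G, SM d σ ρ δ (fun t => Cg * Real.log (1 / t) ^ m) ξ := by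
  have hd3 : (1 : ℝ) ≤ d := by exact_mod_cast hd
  have hκ := κ0_ge d hd
  obtain ⟨l, hl⟩ : ∃ l, l = Real.log (1 / σ) := ⟨_, rfl⟩
  obtain ⟨Λ, hΛ⟩ : ∃ Λ, Λ = Real.log ρ := ⟨_, rfl⟩
  have hσ2 : 2 ≤ 1 / σ := by
    rw [le_div_iff₀ hσ]
    linarith
  have hl2 : 1 / 2 ≤ l := by
    rw [hl]
    have h1 := Real.log_le_log (by norm_num) hσ2
    have h2 := Real.log_two_gt_d9
    linarith
  have hlΛ : l ≤ Λ := by
    rw [hl, hΛ]
    exact Real.log_le_log (by positivity) hρ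
  have hΛ2 : 1 / 2 ≤ Λ := by linarith
  have hρ2 : 2 ≤ ρ := hσ2.trans hρ
  have hρ0 : 0 < ρ := by linarith
  rw [← hl, ← hΛ] at hδ
  have hA2 : (2 : ℝ) ^ (m + 1) ≤ AA d m Cg c := by
    unfold AA
    have : 0 ≤ 96 * 2 ^ m * Cg * c ^ 2 * (κ0 d + 2) := by
      have : 0 ≤ κ0 d + 2 := by linarith
      positivity
    linarith
  have hA1 : 96 * 2 ^ m * Cg * c ^ 2 * (κ0 d + 2) ≤ AA d m Cg c := by
    unfold AA
    have : (0 : ℝ) ≤ 2 ^ (m + 1) := by positivity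
    linarith
  have hA0 : 0 < AA d m Cg c := lt_of_lt_of_le (by positivity) hA2
  have hδσ : σ ^ 2 ≤ δ := by
    rw [hδ]
    have h1 : 1 ≤ AA d m Cg c * (l ^ m * Λ) := by
      calc (1 : ℝ) = 2 ^ (m + 1) * ((1 / 2) ^ m * (1 / 2)) := by
            rw [pow_succ, one_div_pow]
            field_simp
        _ ≤ AA d m Cg c * (l ^ m * Λ) := by gcongr
    calc σ ^ 2 = σ ^ 2 * 1 := by ring
      _ ≤ σ ^ 2 * (AA d m Cg c * (l ^ m * Λ)) := by gcongr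
      _ = _ := by ring
  have hδ0 : 0 < δ := lt_of_lt_of_le (by positivity) hδσ
  have hgg : Real.log (1 / δ) ≤ 2 * l := by
    have h1 : Real.log (1 / δ) ≤ Real.log ((1 / σ) ^ 2) := by
      apply Real.log_le_log (by positivity)
      rw [one_div_pow]
      exact one_div_le_one_div_of_le (by positivity) hδσ
    rw [Real.log_pow, ← hl] at h1
    exact_mod_cast h1
  have hlogδ : 0 ≤ Real.log (1 / δ) := by
    apply Real.log_nonneg
    rw [le_div_iff₀ hδ0]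
    linarith
  obtain ⟨g, hgdef⟩ : ∃ g : ℝ, g = Cg * (2 * l) ^ m := ⟨_, rfl⟩
  have hg0 : 0 < g := by rw [hgdef]; positivity
  obtain ⟨p, hp⟩ : ∃ p : ℕ, p = ⌈κ0 d * Λ⌉₊ := ⟨_, rfl⟩
  have hp1 : κ0 d * Λ ≤ p := by
    rw [hp]
    exact Nat.le_ceil _
  have hp2 : (p : ℝ) ≤ (κ0 d + 2) * Λ := by
    have h1 := Nat.ceil_lt_add_one (show 0 ≤ κ0 d * Λ by nlinarith)
    rw [← hp] at h1
    nlinarith
  have hp0 : p ≠ 0 := by
    intro h0
    rw [h0] at hp1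
    push_cast at hp1
    nlinarith
  refine mainS hd μ c hμ σ ρ δ g hσ (by linarith) hδ0 hδ1 hg0.le
    (fun t => Cg * Real.log (1 / t) ^ m) ?_ hg p hp0 (1 / ρ) ?_
  · rw [hgdef]
    gcongr
  -- the probability
  obtain ⟨X, hX⟩ : ∃ X : ℝ, X = 32 * p * g * c ^ 2 * σ ^ 2 / δ := ⟨_, rfl⟩
  rw [← hX]
  have hX0 : 0 ≤ X := by rw [hX]; positivity
  have hX1 : X ≤ 1 / 3 := by
    rw [hX, div_le_iff₀ hδ0]
    have e3 : 0 ≤ (κ0 d + 2) * Λ := (Nat.cast_nonneg p).trans hp2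
    have e4 : 0 ≤ 32 * ((κ0 d + 2) * Λ) := by linarith
    have e2 : 32 * p * g * c ^ 2 * σ ^ 2 ≤ 32 * ((κ0 d + 2) * Λ) * g * c ^ 2 * σ ^ 2 := by
      gcongr
    refine e2.trans ?_
    have e5 : 32 * ((κ0 d + 2) * Λ) * g * c ^ 2 * σ ^ 2 =
        1 / 3 * ((96 * 2 ^ m * Cg * c ^ 2 * (κ0 d + 2)) * (σ ^ 2 * l ^ m * Λ)) := by
      rw [hgdef, mul_pow]
      ring
    rw [e5, hδ]
    gcongr
  have hX2 : X ≤ Real.exp (-1) := by
    have h1 := Real.exp_one_lt_three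
    have h2 : (1 : ℝ) / 3 ≤ (Real.exp 1)⁻¹ := by
      rw [one_div]
      exact inv_anti₀ (Real.exp_pos _) h1.le
    rw [Real.exp_neg]
    linarith
  have hXp : X ^ p ≤ (ρ ^ (3 * d + 3) * DD d)⁻¹ := by
    have hD := DD_ge d hd
    have h1 : X ^ p ≤ Real.exp (-(p : ℝ)) := by
      calc X ^ p ≤ (Real.exp (-1)) ^ p := pow_le_pow_left₀ hX0 hX2 p
        _ = _ := by
          rw [← Real.exp_nat_mul]
          congr 1
          ring
    have h2 : Real.exp (-(p : ℝ)) ≤ Real.exp (-((3 * d + 3) * Λ + Real.log (DD d))) := by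
      apply Real.exp_le_exp.2
      have h3 : κ0 d * Λ = (3 * d + 3) * Λ + 2 * Real.log (DD d) * Λ := by
        unfold κ0
        ring
      have h4 := Real.log_nonneg hD
      have h5 : Real.log (DD d) * 1 ≤ Real.log (DD d) * (2 * Λ) := by
        apply mul_le_mul_of_nonneg_left _ h4
        linarith
      linarith
    refine h1.trans (h2.trans (le_of_eq ?_))
    rw [Real.exp_neg, Real.exp_add, Real.exp_log (by linarith), hΛ]
    congr 2
    have h6 : ((3 : ℝ) * d + 3) * Real.log ρ = ((3 * d + 3 : ℕ) : ℝ) * Real.log ρ := by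
      push_cast
      ring
    rw [h6, Real.exp_nat_mul, Real.exp_log hρ0]
  have hδρ : 1 / δ ≤ ρ ^ 2 := by
    have h1 : 1 / δ ≤ 1 / σ ^ 2 := one_div_le_one_div_of_le (by positivity) hδσ
    have h2 : 1 / σ ^ 2 = (1 / σ) ^ 2 := by rw [one_div_pow]
    have h3 : (1 / σ) ^ 2 ≤ ρ ^ 2 := pow_le_pow_left₀ (by positivity) hρ 2
    linarith
  have hD0 : 0 < DD d := by linarith [DD_ge d hd]
  calc (3 * ρ) ^ d * ((8 * d / δ) * (X ^ p * (13 * d / δ) ^ d)) =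
      (3 * ρ) ^ d * ((8 * d * (1 / δ)) * (X ^ p * (13 * d * (1 / δ)) ^ d)) := by
        rw [div_eq_mul_one_div (8 * (d : ℝ)), div_eq_mul_one_div (13 * (d : ℝ))]
    _ ≤ (3 * ρ) ^ d * ((8 * d * ρ ^ 2) *
        ((ρ ^ (3 * d + 3) * DD d)⁻¹ * (13 * d * ρ ^ 2) ^ d)) := by
        gcongr
    _ = 1 / ρ := by
      have e1 : (3 * ρ) ^ d * ((8 * d * ρ ^ 2) *
        ((ρ ^ (3 * d + 3) * DD d)⁻¹ * (13 * d * ρ ^ 2) ^ d)) =
        (8 * d * (39 * d) ^ d) * (ρ ^ d * ρ ^ 2 * (ρ ^ 2) ^ d) / (ρ ^ (3 * d + 3) * DD d) := by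
        rw [mul_pow, mul_pow (13 * (d : ℝ)) (ρ ^ 2) d]
        have e2 : (39 * (d : ℝ)) ^ d = 3 ^ d * (13 * d) ^ d := by
          rw [← mul_pow]
          congr 1
          ring
        rw [e2]
        field_simp
      have e3 : ρ ^ (3 * d + 3) = (ρ ^ d * ρ ^ 2 * (ρ ^ 2) ^ d) * ρ := by
        ring
      rw [e1, e3]
      unfold DD at hD0 ⊢
      field_simp

end Pool.Agent.W788.LD.Main
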