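import Pool.Agent.W788.LD.Spec
import Pool.Agent.W788.MF2.Dos2d
import Pool.Agent.W788.MFP.Dos2

/-! Local smoothing for the uniform law. -/

set_option autoImplicit false
set_option linter.unusedSectionVars false

open scoped BigOperators
open MeasureTheory

namespace Pool.Agent.W788.LD.Uni

open Pool.Agent.W788.LD.Main Pool.Agent.W788.LD.Spec
open Pool.Agent.W788.MF2.FormG Pool.Agent.W788.MF2.Dom Pool.Agent.W788.MF2.FinG
open Pool.Agent.H4R2.LO (Zd)

variable {d : ℕ}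

/-- all disorders -/
theorem gen (hd : 1 ≤ d) (μ : Measure ℝ) [IsProbabilityMeasure μ] (c : ℝ) (hμ : DomBy μ c)
    (m : ℕ) (Cg : ℝ) (hCg : 0 < Cg)
    (hg : ∀ (L : ℕ) [NeZero L] (δ : ℝ), 1 / (L : ℝ) ≤ δ → δ ≤ 1 / 2 →
      GB d L δ (Cg * Real.log (1 / δ) ^ m))
    (σ ρ : ℝ) (hσ : 0 < σ) (hσ1 : σ ≤ 1 / 2) (hρ : 1 / σ ≤ ρ) :
    ∃ G : Set (Zd d → ℝ), MeasurableSet G ∧
      1 - 1 / ρ ≤ (Measure.infinitePi fun _ : Zd d => μ).real G ∧
      ∀ ξ ∈ G, SM d σ ρ (AA d m Cg c * (σ ^ 2 * Real.log (1 / σ) ^ m * Real.log ρ))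
        (fun t => Cg * Real.log (1 / t) ^ m) ξ := by
  rcases le_or_gt (AA d m Cg c * (σ ^ 2 * Real.log (1 / σ) ^ m * Real.log ρ)) (1 / 2) with h | h
  · exact paramS hd μ c hμ m Cg hCg hg σ ρ _ hσ hσ1 hρ rfl h
  · refine ⟨Set.univ, MeasurableSet.univ, ?_, ?_⟩
    · rw [probReal_univ]
      have : 0 < ρ := lt_of_lt_of_le (by positivity) hρ
      have : 0 ≤ 1 / ρ := by positivity
      linarith
    · intro ξ _ E δ' h1 h2
      exact absurd (h.trans_le (h1.trans h2)) (lt_irrefl _)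

/-- the density of states bound in all dimensions at least two -/
theorem gb2 (hd : 2 ≤ d) : ∃ Cg : ℝ, 0 < Cg ∧ ∀ (L : ℕ) [NeZero L] (δ : ℝ),
    1 / (L : ℝ) ≤ δ → δ ≤ 1 / 2 → GB d L δ (Cg * Real.log (1 / δ) ^ 2) := by
  rcases hd.eq_or_lt with h | h
  · subst h
    exact ⟨1700, by norm_num, fun L _ δ h1 h2 => Pool.Agent.W788.MF2.Dos2d.green2 δ h1 h2⟩
  · have hC : (1 : ℝ) ≤ 2 + 8 * Pool.Agent.W788.MFP.Dos.C3 := by
      unfold Pool.Agent.W788.MFP.Dos.C3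
      norm_num
    refine ⟨2 * (2 + 8 * Pool.Agent.W788.MFP.Dos.C3), by positivity, fun L _ δ h1 h2 E => ?_⟩
    refine (Pool.Agent.W788.MFP.Dos.green d h E δ h1 h2).trans ?_
    have hL : (0 : ℝ) < L := by exact_mod_cast Nat.pos_of_ne_zero (NeZero.ne L)
    have hδ0 : 0 < δ := lt_of_lt_of_le (by positivity) h1
    have h3 : 1 / 2 ≤ Real.log (1 / δ) := by
      have e1 : (2 : ℝ) ≤ 1 / δ := by
        rw [le_div_iff₀ hδ0]
        linarith
      have e2 := Real.log_le_log (by norm_num) e1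
      have e3 := Real.log_two_gt_d9
      linarith
    have h4 : Real.log (1 / δ) ≤ 2 * Real.log (1 / δ) ^ 2 := by nlinarith
    calc (2 + 8 * Pool.Agent.W788.MFP.Dos.C3) * Real.log (1 / δ) ≤
        (2 + 8 * Pool.Agent.W788.MFP.Dos.C3) * (2 * Real.log (1 / δ) ^ 2) := by gcongr
      _ = _ := by ring

/-- the uniform law on `[-c, c]` -/
noncomputable def unif (c : ℝ) : Measure ℝ :=
  ENNReal.ofReal (1 / (2 * c)) • volume.restrict (Set.Icc (-c) c)

theorem unif_prob (c : ℝ) (hc : 0 < c) : IsProbabilityMeasure (unif c) := by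
  refine ⟨?_⟩
  unfold unif
  rw [Measure.smul_apply, Measure.restrict_apply MeasurableSet.univ, Set.univ_inter,
    Real.volume_Icc, smul_eq_mul, ← ENNReal.ofReal_mul (by positivity)]
  have : 1 / (2 * c) * (c - -c) = 1 := by
    field_simp
    ring
  rw [this, ENNReal.ofReal_one]

theorem unif_bdd (c : ℝ) : ∀ᵐ s ∂(unif c), |s| ≤ c := by
  have h : ∀ᵐ s ∂(volume.restrict (Set.Icc (-c) c)), |s| ≤ c := by
    filter_upwards [ae_restrict_mem measurableSet_Icc] with s hs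
    exact abs_le.2 hs
  exact Measure.ae_smul_measure h _

theorem unif_mean (c : ℝ) (hc : 0 < c) : ∫ s, s ∂(unif c) = 0 := by
  unfold unif
  rw [integral_smul_measure, integral_Icc_eq_integral_Ioc,
    ← intervalIntegral.integral_of_le (by linarith), integral_id]
  simp

theorem scaled (c : ℝ) (hc : 0 < c) : IsProbabilityMeasure ((unif c).map fun s => -s / c) ∧
    DomBy ((unif c).map fun s => -s / c) (1 / m1) := by
  have := unif_prob c hc
  have hm : Measurable fun s : ℝ => -s / c := by fun_prop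
  have hp : IsProbabilityMeasure ((unif c).map fun s => -s / c) :=
    Measure.isProbabilityMeasure_map hm.aemeasurable
  refine ⟨hp, dom_bdd _ 1 one_pos ?_ ?_⟩
  · rw [ae_map_iff hm.aemeasurable (measurableSet_le (by fun_prop) (by fun_prop))]
    filter_upwards [unif_bdd c] with s hs
    rw [abs_div, abs_neg, abs_of_pos hc, div_le_one hc]
    exact hs
  · rw [integral_map hm.aemeasurable (by fun_prop)]
    simp only [neg_div, integral_neg, integral_div, unif_mean c hc, zero_div, neg_zero]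

/-- **flat spectral measures for the uniform law** -/
theorem uni (hd : 2 ≤ d) : ∃ K : ℝ, 0 < K ∧ ∀ c ρ : ℝ, 0 < c → c ≤ 1 / 2 → 1 / c ≤ ρ →
    ∃ G : Set (Zd d → ℝ), MeasurableSet G ∧
      1 - 1 / ρ ≤ (Measure.infinitePi fun _ : Zd d => unif c).real G ∧
      ∀ ω ∈ G, ∀ (g : Zd d → ℂ) (B : Finset (Zd d)), (∀ a ∈ B, ‖a‖ ≤ ρ) →
        (∀ a, a ∉ B → g a = 0) → ∀ m : Measure ℝ, IsFiniteMeasure m →
        (∀ z : ℂ, z.im ≠ 0 → ∃ u : Zd d → ℂ, (Summable fun x => ‖u x‖ ^ 2) ∧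
          (∀ x, -S u x + ((2 * d + ω x : ℝ) : ℂ) * u x - z * u x = g x) ∧
          ∫ t : ℝ, ((t : ℂ) - z)⁻¹ ∂m = ∑' x, (starRingEnd ℂ) (g x) * u x) →
        ∀ E δ : ℝ, K * (c ^ 2 * Real.log (1 / c) ^ 2 * Real.log ρ) ≤ δ → δ ≤ 1 / 2 →
        m.real (Set.Icc (E - δ) (E + δ)) ≤ K * δ * Real.log (1 / δ) ^ 2 *
          (∑ a ∈ B, ‖g a‖) ^ 2 := by
  obtain ⟨Cg, hCg, hgb⟩ := gb2 hd
  obtain ⟨A0, hA0⟩ : ∃ A0 : ℝ, A0 = AA d 2 Cg (1 / m1) := ⟨_, rfl⟩
  have hκ := κ0_ge d (by omega)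
  have hA : 0 < A0 := by
    rw [hA0]
    unfold AA
    have : 0 ≤ κ0 d + 2 := by linarith
    positivity
  refine ⟨A0 + 10 * Cg, by positivity, ?_⟩
  intro c ρ hc hc1 hρ
  obtain ⟨hp, hdom⟩ := scaled c hc
  have hup := unif_prob c hc
  obtain ⟨G, hG, hP, hb⟩ := gen (d := d) (by omega) ((unif c).map fun s => -s / c) _ hdom 2 Cg hCg
    hgb c ρ hc hc1 hρ
  rw [← hA0] at hb
  have hTm : Measurable (fun (ω : Zd d → ℝ) x => -ω x / c) := by fun_prop
  have hlaw : (Measure.infinitePi fun _ : Zd d => unif c).map (fun ω x => -ω x / c) =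
      Measure.infinitePi fun _ : Zd d => (unif c).map fun s => -s / c :=
    Measure.infinitePi_map_pi (μ := fun _ : Zd d => unif c)
      (f := fun _ (s : ℝ) => -s / c) (fun _ => by fun_prop)
  refine ⟨(fun ω x => -ω x / c) ⁻¹' G, hTm hG, ?_, ?_⟩
  · have h1 : (Measure.infinitePi fun _ : Zd d => unif c).real ((fun ω x => -ω x / c) ⁻¹' G) =
        (Measure.infinitePi fun _ : Zd d => (unif c).map fun s => -s / c).real G := by
      rw [← hlaw, map_measureReal_apply hTm hG]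
    rw [h1]
    exact hP
  · intro ω hω g B hB hgB m hm hres E δ hδ hδ1
    have hc2 : 2 ≤ 1 / c := by
      rw [le_div_iff₀ hc]
      linarith
    have hl1 : 0 < Real.log (1 / c) := Real.log_pos (by linarith)
    have hl2 : 0 < Real.log ρ := Real.log_pos (by linarith)
    have hX : 0 < c ^ 2 * Real.log (1 / c) ^ 2 * Real.log ρ := by positivity
    have hδA : A0 * (c ^ 2 * Real.log (1 / c) ^ 2 * Real.log ρ) ≤ δ := by
      refine le_trans ?_ hδ
      apply mul_le_mul_of_nonneg_right _ hX.le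
      linarith
    have hδ0 : 0 < δ := lt_of_lt_of_le (by positivity) hδA
    have h1 := flat c ρ _ _ _ (hb _ hω) (fun x => 2 * d + ω x) (2 * d) (fun x => by
      field_simp
      ring) m E δ hδ0 hδA hδ1 (by positivity) g B hB hgB hres
    refine h1.trans ?_
    have h2 : 0 ≤ δ * Real.log (1 / δ) ^ 2 * (∑ a ∈ B, ‖g a‖) ^ 2 := by positivity
    have h3 : 10 * δ * (Cg * Real.log (1 / δ) ^ 2) * (∑ a ∈ B, ‖g a‖) ^ 2 =
        10 * Cg * (δ * Real.log (1 / δ) ^ 2 * (∑ a ∈ B, ‖g a‖) ^ 2) := by ring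
    have h4 : (A0 + 10 * Cg) * δ * Real.log (1 / δ) ^ 2 * (∑ a ∈ B, ‖g a‖) ^ 2 =
        (A0 + 10 * Cg) * (δ * Real.log (1 / δ) ^ 2 * (∑ a ∈ B, ‖g a‖) ^ 2) := by ring
    rw [h3, h4]
    apply mul_le_mul_of_nonneg_right _ h2
    linarith

end Pool.Agent.W788.LD.Uni
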